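import Pool.Agent.Y261.MT.DES
import Mathlib

/-!
# Project MT (helper113), job TN: tensors
-/

set_option autoImplicit false

open Matrix

namespace Pool.Agent.Y130.MT

open Pool.Agent.Y113.MT (cq)

/-- the space of tensors -/
abbrev Tn (F : Type) (n N r j : ℕ) : Type := (Fin r → Fin n) → (Fin j → Fin N) → F

/-- the infinitesimal action on tensors (copy of `Pool.Agent.Y113.MT.cact`) -/
def cact {F : Type} [Field F] {k n N r j : ℕ} (c : Fin r → Fin k) (X : Fin k → Matrix (Fin n) (Fin n) F) (Y : Matrix (Fin N) (Fin N) F)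
    (T : (Fin r → Fin n) → (Fin j → Fin N) → F) : (Fin r → Fin n) → (Fin j → Fin N) → F := fun J K =>
  (∑ a, ∑ l, X (c a) l (J a) * T (Function.update J a l) K) + ∑ b, ∑ l, Y l (K b) * T J (Function.update K b l)

section
variable {F : Type} [Field F] {k n N r j : ℕ}

/-- slot operators of the first kind -/
def DL (a : Fin r) (M : Matrix (Fin n) (Fin n) F) : Module.End F (Tn F n N r j) where
  toFun T := fun J K => ∑ l, M l (J a) * T (Function.update J a l) K
  map_add' S T := by
    funext J K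
    show ∑ l, M l (J a) * (S (Function.update J a l) K + T (Function.update J a l) K) = _ + _
    rw [← Finset.sum_add_distrib]
    exact Finset.sum_congr rfl fun l _ => mul_add _ _ _
  map_smul' x T := by
    funext J K
    show ∑ l, M l (J a) * (x * T (Function.update J a l) K) = x * _
    rw [Finset.mul_sum]
    refine Finset.sum_congr rfl fun l _ => ?_
    ring

/-- slot operators of the second kind -/
def EL (b : Fin j) (M : Matrix (Fin N) (Fin N) F) : Module.End F (Tn F n N r j) where
  toFun T := fun J K => ∑ l, M l (K b) * T J (Function.update K b l)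
  map_add' S T := by
    funext J K
    show ∑ l, M l (K b) * (S J (Function.update K b l) + T J (Function.update K b l)) = _ + _
    rw [← Finset.sum_add_distrib]
    exact Finset.sum_congr rfl fun l _ => mul_add _ _ _
  map_smul' x T := by
    funext J K
    show ∑ l, M l (K b) * (x * T J (Function.update K b l)) = x * _
    rw [Finset.mul_sum]
    refine Finset.sum_congr rfl fun l _ => ?_
    ring

theorem DL_mul (a : Fin r) (M M' : Matrix (Fin n) (Fin n) F) : DL (N := N) (j := j) a M * DL a M' = DL a (M' * M) := by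
  refine LinearMap.ext fun T => ?_
  funext J K
  show ∑ l, M l (J a) * ∑ l', M' l' (Function.update J a l a) * T (Function.update (Function.update J a l) a l') K =
    ∑ l', (M' * M) l' (J a) * T (Function.update J a l') K
  simp only [Function.update_self, Function.update_idem, Finset.mul_sum]
  rw [Finset.sum_comm]
  refine Finset.sum_congr rfl fun l' _ => ?_
  rw [Matrix.mul_apply, Finset.sum_mul]
  refine Finset.sum_congr rfl fun l _ => ?_
  ring

theorem EL_mul (b : Fin j) (M M' : Matrix (Fin N) (Fin N) F) : EL (n := n) (r := r) b M * EL b M' = EL b (M' * M) := by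
  refine LinearMap.ext fun T => ?_
  funext J K
  show ∑ l, M l (K b) * ∑ l', M' l' (Function.update K b l b) * T J (Function.update (Function.update K b l) b l') =
    ∑ l', (M' * M) l' (K b) * T J (Function.update K b l')
  simp only [Function.update_self, Function.update_idem, Finset.mul_sum]
  rw [Finset.sum_comm]
  refine Finset.sum_congr rfl fun l' _ => ?_
  rw [Matrix.mul_apply, Finset.sum_mul]
  refine Finset.sum_congr rfl fun l _ => ?_
  ring

theorem DD (a b : Fin r) (h : a ≠ b) (M M' : Matrix (Fin n) (Fin n) F) :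
    DL (N := N) (j := j) a M * DL b M' = DL b M' * DL a M := by
  refine LinearMap.ext fun T => ?_
  funext J K
  show ∑ l, M l (J a) * ∑ l', M' l' (Function.update J a l b) * T (Function.update (Function.update J a l) b l') K =
    ∑ l', M' l' (J b) * ∑ l, M l (Function.update J b l' a) * T (Function.update (Function.update J b l') a l) K
  simp only [Function.update_of_ne h, Function.update_of_ne h.symm, Finset.mul_sum]
  rw [Finset.sum_comm]
  refine Finset.sum_congr rfl fun l' _ => Finset.sum_congr rfl fun l _ => ?_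
  rw [Function.update_comm h]
  ring

theorem EE' (a b : Fin j) (h : a ≠ b) (M M' : Matrix (Fin N) (Fin N) F) :
    EL (n := n) (r := r) a M * EL b M' = EL b M' * EL a M := by
  refine LinearMap.ext fun T => ?_
  funext J K
  show ∑ l, M l (K a) * ∑ l', M' l' (Function.update K a l b) * T J (Function.update (Function.update K a l) b l') =
    ∑ l', M' l' (K b) * ∑ l, M l (Function.update K b l' a) * T J (Function.update (Function.update K b l') a l)
  simp only [Function.update_of_ne h, Function.update_of_ne h.symm, Finset.mul_sum]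
  rw [Finset.sum_comm]
  refine Finset.sum_congr rfl fun l' _ => Finset.sum_congr rfl fun l _ => ?_
  rw [Function.update_comm h]
  ring

theorem DE (a : Fin r) (b : Fin j) (M : Matrix (Fin n) (Fin n) F) (M' : Matrix (Fin N) (Fin N) F) :
    DL a M * EL b M' = EL b M' * DL a M := by
  refine LinearMap.ext fun T => ?_
  funext J K
  show ∑ l, M l (J a) * ∑ l', M' l' (K b) * T (Function.update J a l) (Function.update K b l') =
    ∑ l', M' l' (K b) * ∑ l, M l (J a) * T (Function.update J a l) (Function.update K b l')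
  simp only [Finset.mul_sum]
  rw [Finset.sum_comm]
  refine Finset.sum_congr rfl fun l' _ => Finset.sum_congr rfl fun l _ => ?_
  ring

theorem DL_sub (a : Fin r) (M M' : Matrix (Fin n) (Fin n) F) : DL (N := N) (j := j) a (M - M') = DL a M - DL a M' := by
  refine LinearMap.ext fun T => ?_
  funext J K
  show ∑ l, (M l (J a) - M' l (J a)) * T (Function.update J a l) K = (∑ l, M l (J a) * T (Function.update J a l) K) -
    ∑ l, M' l (J a) * T (Function.update J a l) K
  rw [← Finset.sum_sub_distrib]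
  exact Finset.sum_congr rfl fun l _ => sub_mul _ _ _

theorem EL_sub (b : Fin j) (M M' : Matrix (Fin N) (Fin N) F) : EL (n := n) (r := r) b (M - M') = EL b M - EL b M' := by
  refine LinearMap.ext fun T => ?_
  funext J K
  show ∑ l, (M l (K b) - M' l (K b)) * T J (Function.update K b l) = (∑ l, M l (K b) * T J (Function.update K b l)) -
    ∑ l, M' l (K b) * T J (Function.update K b l)
  rw [← Finset.sum_sub_distrib]
  exact Finset.sum_congr rfl fun l _ => sub_mul _ _ _

/-- the slot operators of a pair -/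
def op (c : Fin r → Fin k) (X : Fin k → Matrix (Fin n) (Fin n) F) (Y : Matrix (Fin N) (Fin N) F) :
    Fin r ⊕ Fin j → Module.End F (Tn F n N r j) := Sum.elim (fun a => DL a (X (c a))) fun b => EL b Y

theorem cact_eq (c : Fin r → Fin k) (X : Fin k → Matrix (Fin n) (Fin n) F) (Y : Matrix (Fin N) (Fin N) F) (T : Tn F n N r j) :
    cact c X Y T = (∑ s, op c X Y s) T := by
  rw [LinearMap.sum_apply, Fintype.sum_sum_type]
  funext J K
  rw [Pi.add_apply, Pi.add_apply, Finset.sum_apply, Finset.sum_apply, Finset.sum_apply, Finset.sum_apply]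
  rfl

theorem op_comm (c : Fin r → Fin k) (X X' : Fin k → Matrix (Fin n) (Fin n) F) (Y Y' : Matrix (Fin N) (Fin N) F)
    (s t : Fin r ⊕ Fin j) (h : s ≠ t) : op c X Y s * op c X' Y' t = op c X' Y' t * op c X Y s := by
  rcases s with a | a <;> rcases t with b | b
  · exact DD a b (fun hc => h (by rw [hc])) _ _
  · exact DE a b _ _
  · exact (DE b a _ _).symm
  · exact EE' a b (fun hc => h (by rw [hc])) _ _

theorem op_br (c : Fin r → Fin k) (X X' : Fin k → Matrix (Fin n) (Fin n) F) (Y Y' : Matrix (Fin N) (Fin N) F)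
    (s : Fin r ⊕ Fin j) : op c X' Y' s * op c X Y s - op c X Y s * op c X' Y' s =
      op c (fun i => X i * X' i - X' i * X i) (Y * Y' - Y' * Y) s := by
  rcases s with a | a
  · show DL a _ * DL a _ - DL a _ * DL a _ = DL a _
    rw [DL_mul, DL_mul, ← DL_sub]
  · show EL a _ * EL a _ - EL a _ * EL a _ = EL a _
    rw [EL_mul, EL_mul, ← EL_sub]

theorem br_sum {ι R : Type} [Fintype ι] [DecidableEq ι] [Ring R] (A B : ι → R) (h : ∀ s t, s ≠ t → A s * B t = B t * A s) :
    (∑ s, A s) * (∑ s, B s) - (∑ s, B s) * ∑ s, A s = ∑ s, (A s * B s - B s * A s) := by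
  rw [Finset.sum_mul_sum, Finset.sum_mul_sum, Finset.sum_comm (f := fun i j => B i * A j), ← Finset.sum_sub_distrib]
  refine Finset.sum_congr rfl fun s _ => ?_
  rw [← Finset.sum_sub_distrib]
  refine (Finset.sum_eq_single s (fun t _ ht => ?_) (fun hc => absurd (Finset.mem_univ _) hc))
  rw [h s t ht.symm, sub_self]

theorem cact_br (c : Fin r → Fin k) (X X' : Fin k → Matrix (Fin n) (Fin n) F) (Y Y' : Matrix (Fin N) (Fin N) F)
    (T : Tn F n N r j) : cact c (fun i => X i * X' i - X' i * X i) (Y * Y' - Y' * Y) T =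
      cact c X' Y' (cact c X Y T) - cact c X Y (cact c X' Y' T) := by
  classical
  rw [cact_eq, cact_eq, cact_eq, cact_eq, cact_eq]
  have := br_sum (op (N := N) (j := j) c X' Y') (op c X Y) (fun s t h => op_comm c X' X Y' Y s t h)
  rw [Finset.sum_congr rfl fun s _ => op_br c X X' Y Y' s] at this
  rw [← this]
  rfl

theorem cact_smulT (c : Fin r → Fin k) (X : Fin k → Matrix (Fin n) (Fin n) F) (Y : Matrix (Fin N) (Fin N) F) (s : F)
    (T : Tn F n N r j) : cact c X Y (s • T) = s • cact c X Y T := by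
  rw [cact_eq, cact_eq, map_smul]

/-- linearity in the matrices -/
def cactL (c : Fin r → Fin k) (T : Tn F n N r j) :
    ((Fin k → Matrix (Fin n) (Fin n) F) × Matrix (Fin N) (Fin N) F) →ₗ[F] Tn F n N r j where
  toFun X := cact c X.1 X.2 T
  map_add' X X' := by
    funext J K
    show (∑ a, ∑ l, (X.1 (c a) l (J a) + X'.1 (c a) l (J a)) * T (Function.update J a l) K) +
      ∑ b, ∑ l, (X.2 l (K b) + X'.2 l (K b)) * T J (Function.update K b l) =
      ((∑ a, ∑ l, X.1 (c a) l (J a) * T (Function.update J a l) K) + ∑ b, ∑ l, X.2 l (K b) * T J (Function.update K b l)) +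
      ((∑ a, ∑ l, X'.1 (c a) l (J a) * T (Function.update J a l) K) + ∑ b, ∑ l, X'.2 l (K b) * T J (Function.update K b l))
    simp only [add_mul, Finset.sum_add_distrib]
    ring
  map_smul' x X := by
    funext J K
    show (∑ a, ∑ l, (x * X.1 (c a) l (J a)) * T (Function.update J a l) K) +
      ∑ b, ∑ l, (x * X.2 l (K b)) * T J (Function.update K b l) =
      x * ((∑ a, ∑ l, X.1 (c a) l (J a) * T (Function.update J a l) K) + ∑ b, ∑ l, X.2 l (K b) * T J (Function.update K b l))
    simp only [mul_assoc, ← Finset.mul_sum]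
    ring

/-- the index set of the linear system -/
abbrev Ix (k n N : ℕ) : Type := (Fin k × Fin n × Fin n) ⊕ ((Fin N × Fin N) ⊕ Unit)

/-- the unknowns -/
def co (X : Fin k → Matrix (Fin n) (Fin n) F) (Y : Matrix (Fin N) (Fin N) F) (s : F) : Ix k n N → F :=
  Sum.elim (fun x => X x.1 x.2.1 x.2.2) (Sum.elim (fun x => Y x.1 x.2) fun _ => s)

/-- the coefficients -/
def lc (c : Fin r → Fin k) (T : Tn F n N r j) (J : Fin r → Fin n) (K : Fin j → Fin N) : Ix k n N → F :=
  Sum.elim (fun x => ∑ a, if c a = x.1 ∧ J a = x.2.2 then T (Function.update J a x.2.1) K else 0)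
    (Sum.elim (fun x => ∑ b, if K b = x.2 then T J (Function.update K b x.1) else 0) fun _ => -T J K)

theorem lc_sum (c : Fin r → Fin k) (T : Tn F n N r j) (J : Fin r → Fin n) (K : Fin j → Fin N)
    (X : Fin k → Matrix (Fin n) (Fin n) F) (Y : Matrix (Fin N) (Fin N) F) (s : F) :
    ∑ i, lc c T J K i * co X Y s i = cact c X Y T J K - s * T J K := by
  rw [Fintype.sum_sum_type, Fintype.sum_sum_type]
  show (∑ x : Fin k × Fin n × Fin n, (∑ a, if c a = x.1 ∧ J a = x.2.2 then T (Function.update J a x.2.1) K else 0) *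
      X x.1 x.2.1 x.2.2) + ((∑ x : Fin N × Fin N, (∑ b, if K b = x.2 then T J (Function.update K b x.1) else 0) * Y x.1 x.2) +
      ∑ _u : Unit, -T J K * s) = ((∑ a, ∑ l, X (c a) l (J a) * T (Function.update J a l) K) +
        ∑ b, ∑ l, Y l (K b) * T J (Function.update K b l)) - s * T J K
  have h1 : (∑ x : Fin k × Fin n × Fin n, (∑ a, if c a = x.1 ∧ J a = x.2.2 then T (Function.update J a x.2.1) K else 0) *
      X x.1 x.2.1 x.2.2) = ∑ a, ∑ l, X (c a) l (J a) * T (Function.update J a l) K := by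
    simp only [Finset.sum_mul]
    rw [Finset.sum_comm]
    refine Finset.sum_congr rfl fun a _ => ?_
    rw [Fintype.sum_prod_type, Finset.sum_eq_single (c a)]
    · rw [Fintype.sum_prod_type]
      refine Finset.sum_congr rfl fun l _ => ?_
      rw [Finset.sum_eq_single (J a)]
      · rw [if_pos ⟨rfl, rfl⟩, mul_comm]
      · intro q _ hq
        rw [if_neg (fun hc => hq hc.2.symm), zero_mul]
      · intro hc
        exact absurd (Finset.mem_univ _) hc
    · intro i _ hi
      refine Finset.sum_eq_zero fun x _ => ?_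
      rw [if_neg (fun hc => hi hc.1.symm), zero_mul]
    · intro hc
      exact absurd (Finset.mem_univ _) hc
  have h2 : (∑ x : Fin N × Fin N, (∑ b, if K b = x.2 then T J (Function.update K b x.1) else 0) * Y x.1 x.2) =
      ∑ b, ∑ l, Y l (K b) * T J (Function.update K b l) := by
    simp only [Finset.sum_mul]
    rw [Finset.sum_comm]
    refine Finset.sum_congr rfl fun b _ => ?_
    rw [Fintype.sum_prod_type]
    refine Finset.sum_congr rfl fun l _ => ?_
    rw [Finset.sum_eq_single (K b)]
    · rw [if_pos rfl, mul_comm]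
    · intro q _ hq
      rw [if_neg (fun hc => hq hc.symm), zero_mul]
    · intro hc
      exact absurd (Finset.mem_univ _) hc
  have h3 : (∑ _u : Unit, -T J K * s) = -T J K * s := by simp
  rw [h1, h2, h3]
  ring

/-- tensors of pure type -/
theorem cact_pure (c : Fin r → Fin k) (X : Fin k → Matrix (Fin n) (Fin n) F) (Y : Matrix (Fin N) (Fin N) F)
    (x : Fin r → F) (v : Fin r → Fin n → F) (y : Fin j → F) (w : Fin j → Fin N → F)
    (hv : ∀ a, v a ᵥ* X (c a) = x a • v a) (hw : ∀ b, w b ᵥ* Y = y b • w b) :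
    cact c X Y (fun J K => (∏ a, v a (J a)) * ∏ b, w b (K b)) =
      (∑ a, x a + ∑ b, y b) • (fun J K => (∏ a, v a (J a)) * ∏ b, w b (K b) : Tn F n N r j) := by
  funext J K
  show (∑ a, ∑ l, X (c a) l (J a) * ((∏ a', v a' (Function.update J a l a')) * ∏ b, w b (K b))) +
      (∑ b, ∑ l, Y l (K b) * ((∏ a, v a (J a)) * ∏ b', w b' (Function.update K b l b'))) =
      (∑ a, x a + ∑ b, y b) * ((∏ a, v a (J a)) * ∏ b, w b (K b))
  rw [add_mul, Finset.sum_mul, Finset.sum_mul]
  congr 1
  · refine Finset.sum_congr rfl fun a _ => ?_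
    have h1 : ∀ l, ∏ a', v a' (Function.update J a l a') = v a l * ∏ a' ∈ Finset.univ.erase a, v a' (J a') := by
      intro l
      rw [← Finset.mul_prod_erase _ _ (Finset.mem_univ a), Function.update_self]
      congr 1
      refine Finset.prod_congr rfl fun a' ha' => ?_
      rw [Function.update_of_ne (Finset.ne_of_mem_erase ha')]
    have h2 := congrFun (hv a) (J a)
    rw [Matrix.vecMul, dotProduct, Pi.smul_apply, smul_eq_mul] at h2
    calc ∑ l, X (c a) l (J a) * ((∏ a', v a' (Function.update J a l a')) * ∏ b, w b (K b)) =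
        (∑ l, v a l * X (c a) l (J a)) * ((∏ a' ∈ Finset.univ.erase a, v a' (J a')) * ∏ b, w b (K b)) := by
          rw [Finset.sum_mul]
          refine Finset.sum_congr rfl fun l _ => ?_
          rw [h1]
          ring
      _ = x a * ((∏ a, v a (J a)) * ∏ b, w b (K b)) := by
          rw [h2, ← Finset.mul_prod_erase _ (fun a => v a (J a)) (Finset.mem_univ a)]
          ring
  · refine Finset.sum_congr rfl fun b _ => ?_
    have h1 : ∀ l, ∏ b', w b' (Function.update K b l b') = w b l * ∏ b' ∈ Finset.univ.erase b, w b' (K b') := by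
      intro l
      rw [← Finset.mul_prod_erase _ _ (Finset.mem_univ b), Function.update_self]
      congr 1
      refine Finset.prod_congr rfl fun b' hb' => ?_
      rw [Function.update_of_ne (Finset.ne_of_mem_erase hb')]
    have h2 := congrFun (hw b) (K b)
    rw [Matrix.vecMul, dotProduct, Pi.smul_apply, smul_eq_mul] at h2
    calc ∑ l, Y l (K b) * ((∏ a, v a (J a)) * ∏ b', w b' (Function.update K b l b')) =
        (∑ l, w b l * Y l (K b)) * ((∏ a, v a (J a)) * ∏ b' ∈ Finset.univ.erase b, w b' (K b')) := by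
          rw [Finset.sum_mul]
          refine Finset.sum_congr rfl fun l _ => ?_
          rw [h1]
          ring
      _ = y b * ((∏ a, v a (J a)) * ∏ b, w b (K b)) := by
          rw [h2, ← Finset.mul_prod_erase _ (fun b => w b (K b)) (Finset.mem_univ b)]
          ring

/-- a scalar by which a nilpotent element acts is zero -/
theorem nil_scalar (c : Fin r → Fin k) (i : Fin k) (M : Matrix (Fin n) (Fin n) F) (hM : M * M = 0) (T : Tn F n N r j) (s : F)
    (h : cact c (Pi.single i M) 0 T = s • T) : cact c (Pi.single i M) 0 T = 0 := by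
  classical
  have h1 : ∀ t, IsNilpotent (op (N := N) (j := j) c (Pi.single i M) 0 t) := by
    rintro (a | b)
    · refine ⟨2, ?_⟩
      show (DL a _) ^ 2 = 0
      rw [pow_two, DL_mul]
      have : (Pi.single i M : Fin k → Matrix (Fin n) (Fin n) F) (c a) * (Pi.single i M : Fin k → Matrix (Fin n) (Fin n) F) (c a) = 0 := by
        by_cases hc : c a = i
        · rw [hc, Pi.single_eq_same, hM]
        · rw [Pi.single_eq_of_ne hc, Matrix.mul_zero]
      rw [this]
      refine LinearMap.ext fun S => ?_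
      funext J K
      show ∑ l, (0 : Matrix (Fin n) (Fin n) F) l (J a) * S (Function.update J a l) K = 0
      exact Finset.sum_eq_zero fun l _ => by rw [Matrix.zero_apply, zero_mul]
    · refine ⟨1, ?_⟩
      rw [pow_one]
      refine LinearMap.ext fun S => ?_
      funext J K
      show ∑ l, (0 : Matrix (Fin N) (Fin N) F) l (K b) * S J (Function.update K b l) = 0
      exact Finset.sum_eq_zero fun l _ => by rw [Matrix.zero_apply, zero_mul]
  have h2 : IsNilpotent (∑ t, op (N := N) (j := j) c (Pi.single i M) 0 t) := by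
    refine Commute.isNilpotent_sum (fun t _ => h1 t) fun s t _ _ => ?_
    by_cases hst : s = t
    · rw [hst]
      exact Commute.refl _
    · exact op_comm c _ _ _ _ s t hst
  obtain ⟨e, he⟩ := h2
  rw [cact_eq] at h ⊢
  have h3 : ∀ e : ℕ, ((∑ t, op (N := N) (j := j) c (Pi.single i M) 0 t) ^ e) T = s ^ e • T := by
    intro e
    induction e with
    | zero => rw [pow_zero, pow_zero, one_smul]; rfl
    | succ e ih =>
      rw [pow_succ, Module.End.mul_apply, h, map_smul, ih, smul_smul, pow_succ, mul_comm]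
  have h4 := h3 e
  rw [he, LinearMap.zero_apply] at h4
  rcases smul_eq_zero.1 h4.symm with h5 | h5
  · have h6 : s = 0 := by
      by_contra hs
      exact pow_ne_zero e hs h5
    rw [h, h6, zero_smul]
  · rw [h5, map_zero]

/-- symmetric matrices are combinations of squares -/
theorem sym_sum [CharZero F] (S : Matrix (Fin n) (Fin n) F) (hS : Sᵀ = S) :
    S = ∑ p, ∑ q, (S p q / 2) • (vecMulVec (Pi.single p 1 + Pi.single q 1) (Pi.single p 1 + Pi.single q 1) -
      vecMulVec (Pi.single p 1) (Pi.single p 1) - vecMulVec (Pi.single q 1) (Pi.single q 1)) := by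
  have h1 : ∀ p q : Fin n, (vecMulVec (Pi.single p 1 + Pi.single q 1) (Pi.single p 1 + Pi.single q 1) -
      vecMulVec (Pi.single p 1) (Pi.single p 1) - vecMulVec (Pi.single q 1) (Pi.single q 1) : Matrix (Fin n) (Fin n) F) =
      Matrix.single p q 1 + Matrix.single q p 1 := by
    intro p q
    rw [Matrix.add_vecMulVec, Matrix.vecMulVec_add, Matrix.vecMulVec_add, Matrix.single_eq_single_vecMulVec_single,
      Matrix.single_eq_single_vecMulVec_single]
    abel
  simp only [h1, smul_add, Finset.sum_add_distrib, Matrix.smul_single, smul_eq_mul, mul_one]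
  ext a b
  have h2 : (∑ p, ∑ q, Matrix.single p q (S p q / 2)) = (Matrix.of fun p q => S p q / 2) :=
    (Matrix.matrix_eq_sum_single (Matrix.of fun p q => S p q / 2)).symm
  have h3 : (∑ p, ∑ q, Matrix.single q p (S p q / 2)) = (Matrix.of fun p q => S q p / 2) := by
    rw [Finset.sum_comm]
    exact (Matrix.matrix_eq_sum_single (Matrix.of fun p q => S q p / 2)).symm
  rw [h2, h3, Matrix.add_apply, Matrix.of_apply, Matrix.of_apply]
  have h4 : S b a = S a b := congrFun (congrFun hS a) b
  rw [h4]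
  ring

end

/-- the theorem -/
theorem tnc (k n N r j : ℕ) (c : Fin r → Fin k) (A : Fin k → Matrix (Fin n) (Fin n) ℚ)
    (hA : ∀ i, (A i)ᵀ = -A i) (hdet : ∀ i, (A i).det ≠ 0) (H : Fin k → ℕ → Submodule ℂ (Fin n → ℂ))
    (U : ℤ → Submodule ℂ (Fin N → ℂ)) (Φ : Fin k → Matrix (Fin n) (Fin n) ℂ) (ΦW : Matrix (Fin N) (Fin N) ℂ)
    (hH : ∀ i, ∀ p < n, ∀ v ∈ H i p, v ᵥ* Φ i = (p : ℂ) • v) (hU : ∀ p, ∀ z ∈ U p, z ᵥ* ΦW = (p : ℂ) • z)
    (hm : ∀ 𝔪 : Submodule ℚ ((Fin k → Matrix (Fin n) (Fin n) ℚ) × Matrix (Fin N) (Fin N) ℚ),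
      (∀ X ∈ 𝔪, ∀ Y ∈ 𝔪, ((fun i => X.1 i * Y.1 i - Y.1 i * X.1 i), X.2 * Y.2 - Y.2 * X.2) ∈ 𝔪) →
      (Φ, ΦW) ∈ Submodule.span ℂ ((fun X : (Fin k → Matrix (Fin n) (Fin n) ℚ) × Matrix (Fin N) (Fin N) ℚ =>
        (fun i => cq (X.1 i), cq X.2)) '' (𝔪 : Set _)) →
      ∀ X : Fin k → Matrix (Fin n) (Fin n) ℚ, (∀ i, X i * A i + A i * (X i)ᵀ = 0) → (X, 0) ∈ 𝔪)
    (P : ℤ) (T : (Fin r → Fin n) → (Fin j → Fin N) → ℚ)
    (hT : (fun J K => ((T J K : ℚ) : ℂ)) ∈ Submodule.span ℂ {f : (Fin r → Fin n) → (Fin j → Fin N) → ℂ |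
      ∃ (p : Fin r → ℕ) (v : Fin r → Fin n → ℂ) (q : Fin j → ℤ) (w : Fin j → Fin N → ℂ),
      (∀ a, p a < n ∧ v a ∈ H (c a) (p a)) ∧ (∀ b, w b ∈ U (q b)) ∧ ∑ a, (p a : ℤ) + ∑ b, q b = P ∧
      f = fun J K => (∏ a, v a (J a)) * ∏ b, w b (K b)})
    (X : Fin k → Matrix (Fin n) (Fin n) ℚ) (hX : ∀ i, X i * A i + A i * (X i)ᵀ = 0) : cact c X 0 T = 0 := by
  classical
  set TC : Tn ℂ n N r j := fun J K => ((T J K : ℚ) : ℂ) with hTC
  -- the eigenvalue over the complex numbers
  have hP : cact c Φ ΦW TC = (P : ℂ) • TC := by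
    rw [cact_eq]
    refine Submodule.span_induction (p := fun f _ => (∑ s, op (N := N) (j := j) c Φ ΦW s) f = (P : ℂ) • f) ?_ ?_ ?_ ?_ hT
    · rintro f ⟨p, v, q, w, h1, h2, h3, rfl⟩
      rw [← cact_eq, cact_pure c Φ ΦW (fun a => ((p a : ℕ) : ℂ)) v (fun b => ((q b : ℤ) : ℂ)) w
        (fun a => hH (c a) (p a) (h1 a).1 (v a) (h1 a).2) (fun b => hU (q b) (w b) (h2 b))]
      congr 1
      rw [← h3]
      push_cast
      rfl
    · rw [map_zero, smul_zero]
    · intro x y _ _ hx hy
      rw [map_add, hx, hy, smul_add]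
    · intro a x _ hx
      rw [map_smul, hx, smul_comm]
  -- the stabiliser
  let 𝔪 : Submodule ℚ ((Fin k → Matrix (Fin n) (Fin n) ℚ) × Matrix (Fin N) (Fin N) ℚ) :=
    { carrier := {X | ∃ s : ℚ, cact c X.1 X.2 T = s • T}
      add_mem' := by
        rintro X Y ⟨s, hs⟩ ⟨t, ht⟩
        refine ⟨s + t, ?_⟩
        have := (cactL c T).map_add X Y
        change cact c (X + Y).1 (X + Y).2 T = cact c X.1 X.2 T + cact c Y.1 Y.2 T at this
        rw [this, hs, ht, add_smul]
      zero_mem' := by
        refine ⟨0, ?_⟩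
        have := (cactL (k := k) c T).map_zero
        change cact c 0 0 T = 0 at this
        rw [zero_smul]
        exact this
      smul_mem' := by
        rintro x X ⟨s, hs⟩
        refine ⟨x * s, ?_⟩
        have := (cactL c T).map_smul x X
        change cact c (x • X).1 (x • X).2 T = x • cact c X.1 X.2 T at this
        rw [this, hs, smul_smul] }
  have hbr : ∀ X ∈ 𝔪, ∀ Y ∈ 𝔪, ((fun i => X.1 i * Y.1 i - Y.1 i * X.1 i), X.2 * Y.2 - Y.2 * X.2) ∈ 𝔪 := by
    rintro X ⟨s, hs⟩ Y ⟨t, ht⟩
    refine ⟨0, ?_⟩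
    show cact c (fun i => X.1 i * Y.1 i - Y.1 i * X.1 i) (X.2 * Y.2 - Y.2 * X.2) T = _
    rw [cact_br, hs, ht, cact_smulT, cact_smulT, hs, ht, smul_smul, smul_smul, mul_comm, sub_self, zero_smul]
  -- descent
  have hdes : (Φ, ΦW) ∈ Submodule.span ℂ ((fun X : (Fin k → Matrix (Fin n) (Fin n) ℚ) × Matrix (Fin N) (Fin N) ℚ =>
        (fun i => cq (X.1 i), cq X.2)) '' (𝔪 : Set _)) := by
    have hl : ∀ (J : Fin r → Fin n) (K : Fin j → Fin N) (i : Ix k n N), ((lc c T J K i : ℚ) : ℂ) = lc c TC J K i := by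
      intro J K i
      rcases i with x | x | x
      · show ((∑ a, if c a = x.1 ∧ J a = x.2.2 then T (Function.update J a x.2.1) K else 0 : ℚ) : ℂ) =
          ∑ a, if c a = x.1 ∧ J a = x.2.2 then TC (Function.update J a x.2.1) K else 0
        rw [Rat.cast_sum]
        refine Finset.sum_congr rfl fun a _ => ?_
        split_ifs
        · rfl
        · exact Rat.cast_zero
      · show ((∑ b, if K b = x.2 then T J (Function.update K b x.1) else 0 : ℚ) : ℂ) =
          ∑ b, if K b = x.2 then TC J (Function.update K b x.1) else 0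
        rw [Rat.cast_sum]
        refine Finset.sum_congr rfl fun a _ => ?_
        split_ifs
        · rfl
        · exact Rat.cast_zero
      · show ((-T J K : ℚ) : ℂ) = -TC J K
        rw [Rat.cast_neg]
    have h1 := Pool.Agent.Y261.MT.des (Ix k n N) ((Fin r → Fin n) × (Fin j → Fin N)) (fun JK i => lc c T JK.1 JK.2 i)
      (co Φ ΦW (P : ℂ)) (by
        rintro ⟨J, K⟩
        simp only [hl]
        rw [lc_sum, hP]
        show (P : ℂ) * TC J K - (P : ℂ) * TC J K = 0
        rw [sub_self])
    let π : (Ix k n N → ℂ) →ₗ[ℂ] ((Fin k → Matrix (Fin n) (Fin n) ℂ) × Matrix (Fin N) (Fin N) ℂ) :=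
      { toFun := fun y => (fun i => Matrix.of fun p q => y (Sum.inl (i, p, q)), Matrix.of fun p q => y (Sum.inr (Sum.inl (p, q))))
        map_add' := fun _ _ => rfl
        map_smul' := fun _ _ => rfl }
    have h2 : π (co Φ ΦW (P : ℂ)) = (Φ, ΦW) := rfl
    rw [← h2]
    have h3 : Submodule.span ℂ {y : Ix k n N → ℂ | ∃ z : Ix k n N → ℚ, (∀ JK : (Fin r → Fin n) × (Fin j → Fin N),
        ∑ i, lc c T JK.1 JK.2 i * z i = 0) ∧ y = fun i => (z i : ℂ)} ≤
        (Submodule.span ℂ ((fun X : (Fin k → Matrix (Fin n) (Fin n) ℚ) × Matrix (Fin N) (Fin N) ℚ =>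
        (fun i => cq (X.1 i), cq X.2)) '' (𝔪 : Set _))).comap π := by
      rw [Submodule.span_le]
      rintro y ⟨z, hz, rfl⟩
      refine Submodule.subset_span ⟨(fun i => Matrix.of fun p q => z (Sum.inl (i, p, q)),
        Matrix.of fun p q => z (Sum.inr (Sum.inl (p, q)))), ⟨z (Sum.inr (Sum.inr ())), ?_⟩, rfl⟩
      funext J K
      have h4 := hz (J, K)
      have h5 : z = co (fun i => Matrix.of fun p q => z (Sum.inl (i, p, q)))
          (Matrix.of fun p q => z (Sum.inr (Sum.inl (p, q)))) (z (Sum.inr (Sum.inr ()))) := by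
        funext i
        rcases i with x | x | x <;> rfl
      rw [h5, lc_sum] at h4
      exact sub_eq_zero.1 h4
    exact h3 h1
  have hall := hm 𝔪 hbr hdes
  -- one matrix
  have hone : ∀ i (M : Matrix (Fin n) (Fin n) ℚ), M * A i + A i * Mᵀ = 0 → cact c (Pi.single i M) 0 T = 0 := by
    intro i
    let Z : Submodule ℚ (Matrix (Fin n) (Fin n) ℚ) :=
      LinearMap.ker ((cactL c T).comp ((LinearMap.inl ℚ _ _).comp (LinearMap.single ℚ (fun _ => Matrix (Fin n) (Fin n) ℚ) i)))
    have hZ : ∀ M, M ∈ Z ↔ cact c (Pi.single i M) 0 T = 0 := fun M => Iff.rfl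
    have hu : IsUnit (A i).det := isUnit_iff_ne_zero.2 (hdet i)
    have hBt : ((A i)⁻¹)ᵀ = -(A i)⁻¹ := by
      rw [Matrix.transpose_nonsing_inv, hA i]
      refine Matrix.inv_eq_right_inv ?_
      rw [neg_mul_neg, Matrix.mul_nonsing_inv _ hu]
    have hsq : ∀ v : Fin n → ℚ, vecMulVec v v * (A i)⁻¹ ∈ Z := by
      intro v
      rw [hZ]
      have hnull : v ⬝ᵥ ((A i)⁻¹ *ᵥ v) = 0 := by
        have h1 : v ⬝ᵥ ((A i)⁻¹ *ᵥ v) = -(v ⬝ᵥ ((A i)⁻¹ *ᵥ v)) := by
          conv_lhs => rw [Matrix.dotProduct_mulVec, ← Matrix.mulVec_transpose, hBt, Matrix.neg_mulVec, neg_dotProduct,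
            dotProduct_comm]
        linarith
      have h1 : vecMulVec v v * (A i)⁻¹ * (vecMulVec v v * (A i)⁻¹) = 0 := by
        rw [Matrix.mul_assoc, ← Matrix.mul_assoc (A i)⁻¹, Matrix.mul_vecMulVec, ← Matrix.mul_assoc,
          Matrix.vecMulVec_mul_vecMulVec, hnull, zero_smul]
        simp
      have h2 : vecMulVec v v * (A i)⁻¹ * A i + A i * (vecMulVec v v * (A i)⁻¹)ᵀ = 0 := by
        rw [Matrix.mul_assoc, Matrix.nonsing_inv_mul _ hu, Matrix.mul_one, Matrix.transpose_mul, hBt, ← Matrix.mul_assoc,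
          Matrix.mul_neg, Matrix.mul_nonsing_inv _ hu, Matrix.neg_mul, Matrix.one_mul, Matrix.transpose_vecMulVec,
          add_neg_cancel]
      have h3 := hall (Pi.single i (vecMulVec v v * (A i)⁻¹)) (by
        intro i'
        by_cases hi : i' = i
        · subst hi
          rw [Pi.single_eq_same]
          exact h2
        · rw [Pi.single_eq_of_ne hi, Matrix.zero_mul, Matrix.transpose_zero, Matrix.mul_zero, add_zero])
      obtain ⟨s, hs⟩ := h3
      exact nil_scalar c i _ h1 T s hs
    intro M hM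
    rw [← hZ]
    have hS : (M * A i)ᵀ = M * A i := by
      rw [Matrix.transpose_mul, hA i, Matrix.neg_mul]
      rw [eq_comm]
      exact eq_neg_of_add_eq_zero_left hM
    have hM2 : M = (M * A i) * (A i)⁻¹ := by rw [Matrix.mul_assoc, Matrix.mul_nonsing_inv _ hu, Matrix.mul_one]
    rw [hM2, sym_sum (M * A i) hS, Finset.sum_mul]
    refine Z.sum_mem fun p _ => ?_
    rw [Finset.sum_mul]
    refine Z.sum_mem fun q _ => ?_
    rw [Matrix.smul_mul, Matrix.sub_mul, Matrix.sub_mul]
    exact Z.smul_mem _ (Z.sub_mem (Z.sub_mem (hsq _) (hsq _)) (hsq _))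
  have hsum : X = ∑ i, Pi.single i (X i) := (Finset.univ_sum_single X).symm
  have h1 : cact c X 0 T = ∑ i, cact c (Pi.single i (X i)) 0 T := by
    have := map_sum ((cactL c T).comp (LinearMap.inl ℚ (Fin k → Matrix (Fin n) (Fin n) ℚ) (Matrix (Fin N) (Fin N) ℚ)))
      (fun i => Pi.single i (X i)) Finset.univ
    rw [← hsum] at this
    exact this
  rw [h1]
  exact Finset.sum_eq_zero fun i _ => hone i (X i) (hX i)

end Pool.Agent.Y130.MT
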