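import Pool.Agent.Y113.MT.PStm
import Pool.Agent.Y130.MT.TNc

/-!
# Project MT (helper113), job TN
-/

set_option autoImplicit false

namespace Pool.Agent.Y130.MT

/-- TN (`tnc` is the same statement with a literal copy of `cact`) -/
theorem tn : Pool.Agent.Y113.MT.S_TN := tnc

end Pool.Agent.Y130.MT
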