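import Pool.Agent.Y130.MT.Pub

/-!
# The Mumford-Tate conjecture from isolated Frobenius eigenvalues: proof
-/

set_option linter.unusedSectionVars false

open Module Finset Function

namespace Pool.Agent.Y130.MT

open Pool.Agent.Y130 Pool.Agent.TH125.Gal Pool.Agent.H204R3.GP Pool.Agent.H204R3.CM
  Pool.Agent.H204R3.SP

variable {K : Type} [Field K] [CharZero K] {T : Type} [AddCommGroup T]
  [Module K T] [FiniteDimensional K T] {V : Type}
  [AddCommGroup V] [Module K V] [FiniteDimensional K V] {E : Type} [AddCommGroup E] [Module K E]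
  [FiniteDimensional K E] {Γ : Type} [Group Γ] {C : Type} {χ : Γ →* K}
  {τ : Representation K Γ T} {ρ : Representation K Γ V} {σ : Representation K Γ E}
  {B : T →ₗ[K] T →ₗ[K] K} {U : C → Submodule K T} {star : C → C} {Δ : Subgroup Γ}
  {H : Γ → Subgroup Kˣ}

theorem IsolatedBlocks.fam (h : IsolatedBlocks τ χ B U star Δ H) : Fam B U star :=
  ⟨h.nondeg, h.sup, h.orth, h.star_star⟩

theorem IsolatedBlocks.dat (h : IsolatedBlocks τ χ B U star Δ H) : Dat B τ U star Δ :=
  ⟨h.fam, h.index, h.stable, h.ne, h.irreducible⟩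

theorem IsolatedEigenvector.isoF (hH : ContainsEigenvalues H χ σ) {F : Γ} {a : K} {v : T}
    (h : IsolatedEigenvector (τ F) (χ F) (H F) a v) : IsoF (τ F) (σ F) (χ F) a v where
  ne := h.ne
  eig := h.eig
  simple := fun β hβ x hx => by
    obtain ⟨r, rfl⟩ := h.simple β hβ x hx
    exact Submodule.smul_mem _ _ (Submodule.mem_span_singleton_self v)
  rel := h.rel
  rel' := by
    intro β γ δ hβ hγ hδ hroot
    obtain ⟨u, hu, rfl⟩ := (hH F).2 γ hγ
    obtain ⟨w, hw, rfl⟩ := (hH F).2 δ hδ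
    obtain ⟨n, hn, he⟩ := hroot
    refine h.indep β hβ n hn ((w * u⁻¹) ^ n) (Subgroup.pow_mem _ (Subgroup.mul_mem _ hw
      (Subgroup.inv_mem _ hu)) n) ?_
    rw [Units.val_pow_eq_pow_val, Units.val_mul, mul_pow]
    rw [mul_pow, mul_pow] at he
    have h1 : ((u⁻¹ : Kˣ) : K) ^ n * (u : K) ^ n = 1 := by
      rw [← mul_pow, Units.inv_mul, one_pow]
    linear_combination (-((u⁻¹ : Kˣ) : K) ^ n) * he - β ^ n * h1

theorem cenF (hH : ContainsEigenvalues H χ σ) {F : Γ} {c : C}
    (h : IndependentDet (τ F) U c (star c) (H F)) : CenF (τ F) (σ F) (χ F) U star c := by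
  obtain ⟨hf, h⟩ := h
  refine ⟨hf, fun k hk u hu => h k hk u ?_⟩
  refine Subgroup.closure_le _ |>.2 ?_ hu
  rintro x (h1 | ⟨d, hd1, hd2, hx⟩)
  · have h2 : x ∈ H F := by
      rcases h1 with h1 | h1
      · obtain ⟨w, hw, hw'⟩ := (hH F).1
        have h3 : x = w := Units.ext (by rw [hw']; exact h1)
        rw [h3]
        exact hw
      · obtain ⟨w, hw, hw'⟩ := (hH F).2 _ h1
        have h3 : x = w := Units.ext hw'.symm
        rw [h3]
        exact hw
    exact Subgroup.mem_sup_left h2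
  · exact Subgroup.mem_sup_right (Subgroup.subset_closure ⟨d, hd1, hd2, hx⟩)

theorem alt_symm (h : ∀ x, B x x = 0) (x y : T) : B x y = (-1 : K) * B y x := by
  have h1 := h (x + y)
  simp only [map_add, LinearMap.add_apply, h, zero_add, add_zero] at h1
  linear_combination h1

/-- Tate classes with coefficients are generated in degree two. -/
theorem forms_V [IsAlgClosed K] [Finite C] (hdom : SummandOfCopies τ ρ)
    (h : IsolatedBlocks τ χ B U star Δ H) (hH : ContainsEigenvalues H χ σ) {S : Type} [Fintype S]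
    [DecidableEq S] {φ : MultilinearMap K (fun _ : S => V) E} (hφ : Eqv ρ σ φ) :
    φ ∈ Submodule.span K (GG S ρ σ χ) := by
  classical
  obtain ⟨r, i, p, hi, hp, hip⟩ := hdom
  obtain ⟨Δ₁, hΔ₁, hφ1⟩ := hφ
  let q : (S → Fin r) → MultilinearMap K (fun _ : S => T) E := fun j =>
    φ.compLinearMap fun s => i (j s)
  have hq : ∀ j, q j ∈ Submodule.span K (GG S τ σ χ) := by
    intro j
    refine forms_T (alt_symm h.alt) h.equiv h.dat (fun c => ?_) (fun c hc => ?_)
      ⟨Δ₁, hΔ₁, fun s hs v => ?_⟩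
    · rcases h.isolated c with h1 | ⟨F, a, v, hv, h1⟩
      · exact Or.inl h1
      · exact Or.inr ⟨F, a, v, hv, h1.isoF hH⟩
    · obtain ⟨F, hF⟩ := h.det c hc
      exact ⟨F, cenF hH hF⟩
    · change φ (fun l => i (j l) (τ s (v l))) = σ s (φ fun l => i (j l) (v l))
      rw [← hφ1 s hs]
      congr 1
      funext l
      rw [hi]
  let pb : (S → Fin r) → (MultilinearMap K (fun _ : S => T) E →ₗ[K]
      MultilinearMap K (fun _ : S => V) E) := fun j =>
    { toFun := fun f => f.compLinearMap fun s => p (j s)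
      map_add' := fun _ _ => rfl
      map_smul' := fun _ _ => rfl }
  have hsum : φ = ∑ j : S → Fin r, pb j (q j) := by
    ext v
    rw [MultilinearMap.sum_apply]
    have h1 : φ v = φ (fun s => ∑ j, i j (p j (v s))) := by
      congr 1
      funext s
      rw [hip]
    rw [h1, MultilinearMap.map_sum]
    rfl
  rw [hsum]
  refine Submodule.sum_mem _ fun j _ => ?_
  have h1 : pb j (q j) ∈ (Submodule.span K (GG S τ σ χ)).map (pb j) :=
    Submodule.mem_map_of_mem (hq j)
  rw [Submodule.map_span] at h1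
  refine Submodule.span_mono ?_ h1
  rintro _ ⟨_, ⟨m, e, β, w, hβ, hw, rfl⟩, rfl⟩
  refine ⟨m, e, fun l => (β l).compl₁₂ (p (j (e (l, 0)))) (p (j (e (l, 1)))), w, fun l => ?_, hw,
    rfl⟩
  obtain ⟨Δ', hΔ', hβ'⟩ := hβ l
  refine ⟨Δ', hΔ', fun s hs u v => ?_⟩
  rw [LinearMap.compl₁₂_apply, LinearMap.compl₁₂_apply, hp, hp, hβ' s hs]

variable {W A : Type} [AddCommGroup W] [Module ℚ W] [AddCommGroup A] [Module ℂ A]

/-- The Tate classes with coefficients are combinations of products of Hodge classes and Tate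
vectors. -/
theorem coefficients_of (per : W →+ A) (comp : W →+ V)
    (ω : V →ₗ[K] V →ₗ[K] K) (hnd' : ∀ u, (∀ v, ω u v = 0) → u = 0)
    (hωρ : ∀ s u v, ω (ρ s u) (ρ s v) = χ s * ω u v)
    (ω₀ : W →ₗ[ℚ] W →ₗ[ℚ] ℚ) (hω₀ : IsHodgeBilinear per ω₀)
    (hωω : ∀ x y, ω (comp x) (comp y) = ((ω₀ x y : ℚ) : K))
    (hF : FaltingsEnd per comp ρ)
    (hall : ∀ (n : ℕ) (φ : MultilinearMap K (fun _ : Fin n => V) E), Eqv ρ σ φ →
      φ ∈ Submodule.span K (GG (Fin n) ρ σ χ)) :
    TateClassesWithCoefficients per comp ρ χ σ := by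
  classical
  intro n φ hφ
  have h1 := hall n φ hφ
  refine Submodule.span_le.2 ?_ h1
  rintro _ ⟨m, e, β, w, hβ, hw, rfl⟩
  have h2 := mmG_mem_span 1 (HB (k := K) per comp) β
    (fun l => tate2_mem per comp ρ χ ω hnd' hωρ ω₀ hω₀ hωω hF (β l) (hβ l))
  let L : MultilinearMap K (fun _ : Fin m × Fin 2 => V) K →ₗ[K]
      MultilinearMap K (fun _ : Fin n => V) E :=
    { toFun := fun f => (f.domDomCongr e).smulRight w
      map_add' := fun f g => by
        ext v
        exact add_smul _ _ _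
      map_smul' := fun c f => by
        ext v
        exact mul_smul _ _ _ }
  have h3 : (prodForm e β).smulRight w = L (mmG 1 β) := rfl
  rw [SetLike.mem_coe, h3]
  have h4 := Submodule.mem_map_of_mem (f := L) h2
  rw [Submodule.map_span] at h4
  refine Submodule.span_mono ?_ h4
  rintro _ ⟨_, ⟨B', hB', rfl⟩, rfl⟩
  choose B₀ hB₀ hBB using hB'
  refine ⟨m, e, B₀, w, hB₀, hw, fun v => ?_⟩
  change (mmG 1 B' (fun i => comp (v (e i)))) • w = _
  rw [mmG_apply]
  congr 1
  push_cast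
  exact Finset.prod_congr rfl fun l _ => hBB l _ _

/-- The Mumford-Tate conjecture for isolated Frobenius eigenvalues. -/
theorem main [IsAlgClosed K] [Finite C] (per : W →+ A) (comp : W →+ V)
    (ω : V →ₗ[K] V →ₗ[K] K) (hnd' : ∀ u, (∀ v, ω u v = 0) → u = 0)
    (hωρ : ∀ s u v, ω (ρ s u) (ρ s v) = χ s * ω u v)
    (ω₀ : W →ₗ[ℚ] W →ₗ[ℚ] ℚ) (hω₀ : IsHodgeBilinear per ω₀)
    (hωω : ∀ x y, ω (comp x) (comp y) = ((ω₀ x y : ℚ) : K))
    (hF : FaltingsEnd per comp ρ) (hdom : SummandOfCopies τ ρ)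
    (h : IsolatedBlocks τ χ B U star Δ H) (hH : ContainsEigenvalues H χ σ) :
    TateClassesWithCoefficients per comp ρ χ σ :=
  coefficients_of per comp ω hnd' hωρ ω₀ hω₀ hωω hF fun _ _ hφ => forms_V hdom h hH hφ

end Pool.Agent.Y130.MT
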