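import Pool.Agent.Y130.MT.Rel
import Pool.Agent.H204R3.GP.MT

/-!
# Tate classes with coefficients are generated in degree two
-/

set_option linter.unusedSectionVars false

open Module Finset Function

namespace Pool.Agent.Y130.MT

open Pool.Agent.Y130 Pool.Agent.TH125.Gal Pool.Agent.TH118.SG Pool.Agent.TH125.Nod
  Pool.Agent.H204R3.GP Pool.Agent.H204R3.CM Pool.Agent.H204R3.SP

section defs

variable {K : Type} [Field K] {V : Type} [AddCommGroup V] [Module K V] {E : Type}
  [AddCommGroup E] [Module K E] {S : Type} {Γ : Type} [Group Γ]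

/-- the product of bilinear forms -/
noncomputable def prodForm {m : ℕ} (e : Fin m × Fin 2 ≃ S) (β : Fin m → (V →ₗ[K] V →ₗ[K] K)) :
    MultilinearMap K (fun _ : S => V) K :=
  (prodMap (fun l => bil2 (β l))).domDomCongr e

theorem prodForm_apply {m : ℕ} (e : Fin m × Fin 2 ≃ S) (β : Fin m → (V →ₗ[K] V →ₗ[K] K))
    (v : S → V) : prodForm e β v = ∏ l, β l (v (e (l, 0))) (v (e (l, 1))) := rfl

/-- A vector on which a subgroup of finite index acts through `χ ^ m`. -/
def IsTateVec (σ : Γ →* (E →ₗ[K] E)) (χ : Γ →* K) (m : ℕ) (w : E) : Prop :=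
  ∃ Δ : Subgroup Γ, Δ.FiniteIndex ∧ ∀ s ∈ Δ, σ s w = χ s ^ m • w

/-- the span of the products of bilinear Tate forms and of Tate vectors -/
def GG (S : Type) (ρ : Γ →* (V →ₗ[K] V)) (σ : Γ →* (E →ₗ[K] E)) (χ : Γ →* K) :
    Set (MultilinearMap K (fun _ : S => V) E) :=
  {F | ∃ (m : ℕ) (e : Fin m × Fin 2 ≃ S) (β : Fin m → (V →ₗ[K] V →ₗ[K] K)) (w : E),
    (∀ l, IsTate2 ρ χ (β l)) ∧ IsTateVec σ χ m w ∧ F = (prodForm e β).smulRight w}

end defs

variable {K : Type} [Field K] [CharZero K] [IsAlgClosed K] {T : Type} [AddCommGroup T]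
  [Module K T] [FiniteDimensional K T] {E : Type} [AddCommGroup E] [Module K E]
  [FiniteDimensional K E] {S : Type} [Fintype S] [DecidableEq S] {G : Type} [Group G]
  {B : T →ₗ[K] T →ₗ[K] K} {ρ : G →* (T →ₗ[K] T)} {σ : G →* (E →ₗ[K] E)} {μ : G →* K}
  {C : Type} {U : C → Submodule K T} {star : C → C}

/-- the projection to a block -/
theorem exists_projB [Finite C] (hfam : Fam B U star) {Δ₀ : Subgroup G}
    (hst : ∀ g ∈ Δ₀, ∀ c, ∀ x ∈ U c, ρ g x ∈ U c) (c : C) : ∃ P : T →ₗ[K] T,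
      (∀ x ∈ U c, P x = x) ∧ (∀ d, d ≠ c → ∀ x ∈ U d, P x = 0) ∧
      ∀ g ∈ Δ₀, ∀ x, P (ρ g x) = ρ g (P x) := by
  classical
  have := Fintype.ofFinite C
  have hint : DirectSum.IsInternal U :=
    DirectSum.isInternal_submodule_of_iSupIndep_of_iSup_eq_top hfam.indep hfam.sup
  obtain ⟨ι, _, b, κ, β, hb, -, -⟩ := exists_adapted hfam
    (f := (1 : Module.End K T)) (fun c x hx => hx)
  let P : T →ₗ[K] T := b.constr K (fun i => if κ i = c then b i else 0)
  have hPb : ∀ i, P (b i) = if κ i = c then b i else 0 := fun i => b.constr_basis K _ i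
  have hsp : ∀ d, ∀ x ∈ U d, x = ∑ j with κ j = d, b.repr x j • b j := by
    intro d y hy
    have h6 : y = ∑ j, b.repr y j • b j := (b.sum_repr y).symm
    rw [← Finset.sum_filter_add_sum_filter_not univ (fun j => κ j = d)] at h6
    have h8 : ∑ j with ¬ κ j = d, b.repr y j • b j = 0 := by
      have h9 : y - ∑ j with κ j = d, b.repr y j • b j =
          ∑ j with ¬ κ j = d, b.repr y j • b j := by
        rw [sub_eq_iff_eq_add']
        exact h6
      have h10 : y - ∑ j with κ j = d, b.repr y j • b j ∈ U d :=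
        Submodule.sub_mem _ hy (Submodule.sum_mem _ fun j hj =>
          Submodule.smul_mem _ _ ((Finset.mem_filter.1 hj).2 ▸ hb j))
      have h11 : ∑ j with ¬ κ j = d, b.repr y j • b j ∈ ⨆ (e : C) (_ : e ≠ d), U e :=
        Submodule.sum_mem _ fun j hj => Submodule.smul_mem _ _
          (Submodule.mem_iSup_of_mem (κ j) (Submodule.mem_iSup_of_mem
            (Finset.mem_filter.1 hj).2 (hb j)))
      rw [h9] at h10
      exact Submodule.disjoint_def.1 (hfam.indep d) _ h10 h11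
    rw [h8, add_zero] at h6
    exact h6
  have h1 : ∀ x ∈ U c, P x = x := by
    intro x hx
    conv_rhs => rw [hsp c x hx]
    conv_lhs => rw [hsp c x hx]
    rw [map_sum]
    refine Finset.sum_congr rfl fun j hj => ?_
    rw [map_smul, hPb, if_pos (Finset.mem_filter.1 hj).2]
  have h2 : ∀ d, d ≠ c → ∀ x ∈ U d, P x = 0 := by
    intro d hd x hx
    rw [hsp d x hx, map_sum]
    refine Finset.sum_eq_zero fun j hj => ?_
    rw [map_smul, hPb, if_neg, smul_zero]
    rw [(Finset.mem_filter.1 hj).2]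
    exact hd
  refine ⟨P, h1, h2, fun g hg x => ?_⟩
  have h3 : P ∘ₗ ρ g = ρ g ∘ₗ P := by
    refine b.ext fun i => ?_
    rw [LinearMap.comp_apply, LinearMap.comp_apply, hPb]
    by_cases hi : κ i = c
    · rw [if_pos hi, h1 _ (hst g hg c _ (hi ▸ hb i))]
    · rw [if_neg hi, h2 _ hi _ (hst g hg _ _ (hb i)), map_zero]
  exact congrArg (fun f : T →ₗ[K] T => f x) h3

/-- **Tate classes with coefficients**, symplectic blocks. -/
theorem forms_T [Finite C] (hsy : ∀ x y, B x y = (-1 : K) * B y x)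
    (hB : ∀ g x y, B (ρ g x) (ρ g y) = μ g * B x y) {Δ₀ : Subgroup G}
    (h : Dat B ρ U star Δ₀)
    (hiso : ∀ c, finrank K (U c) ≤ 1 ∨ ∃ F a v, v ∈ U c ∧ IsoF (ρ F) (σ F) (μ F) a v)
    (hcen : ∀ c, star c ≠ c → ∃ F, CenF (ρ F) (σ F) (μ F) U star c)
    {φ : MultilinearMap K (fun _ : S => T) E} (hφ : Eqv ρ σ φ) :
    φ ∈ Submodule.span K (GG S ρ σ μ) := by
  classical
  have := Fintype.ofFinite C
  have hfam := h.fam
  have hall : ∀ c, ∀ x ∈ U (star c), ∀ y ∈ U c, pp B (((-1 : ℤ)) : K) x y ∈ LL S B ρ σ := by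
    intro c x hx y hy
    have h1 := alg_main (S := S) (s := (-1 : K)) (Or.inr rfl) hsy hB h hiso hcen c hx hy
    simpa using h1
  obtain ⟨J, _, t, κ, -, ht, -, -⟩ := exists_adapted hfam
    (f := (1 : Module.End K T)) (fun c x hx => hx)
  have hgen := gen_blocks (s := (-1 : ℤ)) (Or.inr rfl) (by simpa using hsy) hfam.nd
    hfam.star_star hfam.orth hall hφ t ht (fun c h1 _ => absurd h1 (by decide))
  choose P hP1 hP2 hP3 using fun c => exists_projB (ρ := ρ) hfam h.stab c
  let coef : MultilinearMap K (fun _ : S => T) E →ₗ[K] ((S → J) → E) :=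
    { toFun := fun φ r => φ (fun j => t (r j))
      map_add' := fun _ _ => rfl
      map_smul' := fun _ _ => rfl }
  have hinj : Function.Injective coef := fun φ φ' h =>
    Basis.ext_multilinear (fun _ => t) fun I => congrFun h I
  let TB : Set (T →ₗ[K] T →ₗ[K] K) := {β | ∀ s ∈ Δ₀, ∀ u v, β (ρ s u) (ρ s v) = μ s * β u v}
  let PP : Set (MultilinearMap K (fun _ : S => T) K) :=
    {g | ∃ (m : ℕ) (e : Fin m × Fin 2 ≃ S) (β : Fin m → (T →ₗ[K] T →ₗ[K] K)),
      (∀ l, β l ∈ TB) ∧ g = prodForm e β}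
  have hle : (GenA κ (Matrix.of fun i j => B (t i) (t j)) S : Submodule K ((S → J) → E)) ≤
      (Submodule.span K {F : MultilinearMap K (fun _ : S => T) E |
        ∃ g ∈ PP, ∃ w : E, F = g.smulRight w}).map coef := by
    unfold GenA
    rw [Submodule.span_le]
    rintro _ ⟨c, m, e, w, rfl⟩
    refine ⟨(prodForm e fun l => (B.comp (P (c (e (l, 0))))).compl₂ (P (c (e (l, 1))))).smulRight w,
      Submodule.subset_span ⟨_, ⟨m, e, _, fun l => ?_, rfl⟩, w, rfl⟩, ?_⟩
    · intro s hs u v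
      rw [LinearMap.compl₂_apply, LinearMap.comp_apply, LinearMap.compl₂_apply,
        LinearMap.comp_apply, hP3 _ s hs, hP3 _ s hs, hB]
    · funext J
      change (prodForm e (fun l => (B.comp (P (c (e (l, 0))))).compl₂ (P (c (e (l, 1)))))
        (fun j => t (J j))) • w = gen κ (Matrix.of fun i j => B (t i) (t j)) c e w J
      rw [prodForm_apply]
      have hPt : ∀ c i, P c (t i) = if κ i = c then t i else 0 := by
        intro c i
        by_cases hi : κ i = c
        · rw [if_pos hi, hP1 c _ (hi ▸ ht i)]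
        · rw [if_neg hi, hP2 c _ hi _ (ht i)]
      unfold gen
      by_cases hJ : ∀ j, κ (J j) = c j
      · rw [if_pos hJ]
        congr 1
        refine Finset.prod_congr rfl fun l _ => ?_
        rw [LinearMap.compl₂_apply, LinearMap.comp_apply, hPt, hPt, if_pos (hJ _), if_pos (hJ _)]
        rfl
      · rw [if_neg hJ]
        push Not at hJ
        obtain ⟨j, hj⟩ := hJ
        have h0 : (∏ l, ((B.comp (P (c (e (l, 0))))).compl₂ (P (c (e (l, 1)))))
            (t (J (e (l, 0)))) (t (J (e (l, 1))))) = 0 := by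
          obtain ⟨⟨l, ε⟩, rfl⟩ := e.surjective j
          refine Finset.prod_eq_zero (Finset.mem_univ l) ?_
          rw [LinearMap.compl₂_apply, LinearMap.comp_apply, hPt, hPt]
          fin_cases ε
          · have h1 : ¬ κ (J (e (l, 0))) = c (e (l, 0)) := hj
            rw [if_neg h1, map_zero, LinearMap.zero_apply]
          · have h1 : ¬ κ (J (e (l, 1))) = c (e (l, 1)) := hj
            rw [if_neg h1, map_zero]
        rw [h0, zero_smul]
  obtain ⟨φ', hφ', hφφ⟩ := hle hgen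
  have h2 : φ' = φ := hinj hφφ
  rw [h2] at hφ'
  obtain ⟨Δ₁, hΔ₁, hφ1⟩ := hφ
  have hΔ₀ := h.fin
  have h3 := invariant_coeff ρ σ (μ ^ (Fintype.card S / 2)) (Δ₁ ⊓ Δ₀) PP (by
    rintro _ ⟨m, e, β, hβ, rfl⟩ s hs v
    have hm : Fintype.card S / 2 = m := by
      have h4 := Fintype.card_congr e
      rw [Fintype.card_prod, Fintype.card_fin, Fintype.card_fin] at h4
      omega
    rw [hm, prodForm_apply, prodForm_apply, MonoidHom.pow_apply]
    rw [Finset.prod_congr rfl (fun l _ => hβ l s hs.2 _ _), Finset.prod_mul_distrib,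
      Finset.prod_const, Finset.card_univ, Fintype.card_fin]) hφ' (fun s hs v => hφ1 s hs.1 v)
  refine Submodule.span_mono ?_ h3
  rintro _ ⟨_, ⟨m, e, β, hβ, rfl⟩, w, hw, rfl⟩
  have hm : Fintype.card S / 2 = m := by
    have h4 := Fintype.card_congr e
    rw [Fintype.card_prod, Fintype.card_fin, Fintype.card_fin] at h4
    omega
  refine ⟨m, e, β, w, fun l => ⟨Δ₀, hΔ₀, hβ l⟩, ⟨Δ₁ ⊓ Δ₀, inferInstance, fun s hs => ?_⟩, rfl⟩
  rw [hw s hs, hm, MonoidHom.pow_apply]

end Pool.Agent.Y130.MT
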