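import Pool.Agent.Y130.MT.Form

/-!
# Isolated Frobenius eigenvalues on the Tate module: definitions
-/

set_option linter.unusedSectionVars false

open Module

namespace Pool.Agent.Y130.MT

open Pool.Agent.Y130 Pool.Agent.H204R3.GP

variable {K : Type} [Field K] {T : Type} [AddCommGroup T] [Module K T] {V : Type}
  [AddCommGroup V] [Module K V] {E : Type} [AddCommGroup E] [Module K E] {Γ : Type} [Group Γ]
  {C : Type}

/-- The vector `v` is an isolated eigenvector of `f` with the eigenvalue `a` (`α ~ β` means that `α`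
and `β` differ by a root of unity): the generalized eigenspaces for the `β ~ a` are contained in the
line of `v`; if `a δ ~ β γ` for eigenvalues `β`, `γ`, `δ` of `f`, then `β ~ a` or `γ ~ a` or
`a δ ~ m`; and no positive power of a quotient `β / a`, for an eigenvalue `β`, not `~ a`, is in the
group `H` of numbers. -/
structure IsolatedEigenvector (f : T →ₗ[K] T) (m : K) (H : Subgroup Kˣ) (a : K) (v : T) :
    Prop where
  ne : v ≠ 0
  eig : f v = a • v
  simple : ∀ β, RootEq β a → ∀ x ∈ Module.End.maxGenEigenspace f β, ∃ r : K, x = r • v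
  rel : ∀ β γ δ, IsEig f β → IsEig f γ → IsEig f δ → RootEq (a * δ) (β * γ) →
    RootEq β a ∨ RootEq γ a ∨ RootEq (a * δ) m
  indep : ∀ β, IsEig f β → ∀ n : ℕ, 0 < n → ∀ u ∈ H, β ^ n = u * a ^ n → RootEq β a

/-- `f` maps the subspaces `U d` to themselves and no positive power of the determinant of `f` on
`U c` is in the group generated by `H` and the determinants of `f` on the `U d` with `d` different
from `c` and `c'`. -/
def IndependentDet (f : T →ₗ[K] T) (U : C → Submodule K T) (c c' : C) (H : Subgroup Kˣ) : Prop :=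
  ∃ h : ∀ d, ∀ x ∈ U d, f x ∈ U d, ∀ n : ℕ, 0 < n →
    ∀ u ∈ H ⊔ Subgroup.closure {u : Kˣ | ∃ d, d ≠ c ∧ d ≠ c' ∧
      (u : K) = LinearMap.det (f.restrict (h d))},
    (u : K) ≠ LinearMap.det (f.restrict (h c)) ^ n

/-- `T` is the sum of the nonzero subspaces `U c`, which are stable under the subgroup `Δ` of finite
index and irreducible under all subgroups of finite index; `B` is a nondegenerate alternating form on
`T` with multiplier `χ`, and `U c` is orthogonal to all `U d` except for the one with `d = star c`,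
for an involution `star`; each `U c` is at most a line or contains an isolated eigenvector of some
`ρ F`; and for `star c ≠ c` some `ρ F` has independent determinant on `U c`. -/
structure IsolatedBlocks (ρ : Representation K Γ T) (χ : Γ →* K) (B : T →ₗ[K] T →ₗ[K] K)
    (U : C → Submodule K T) (star : C → C) (Δ : Subgroup Γ) (H : Γ → Subgroup Kˣ) : Prop where
  alt : ∀ x, B x x = 0
  nondeg : ∀ x, (∀ y, B x y = 0) → x = 0
  equiv : ∀ g x y, B (ρ g x) (ρ g y) = χ g * B x y
  sup : ⨆ c, U c = ⊤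
  ne : ∀ c, U c ≠ ⊥
  star_star : ∀ c, star (star c) = c
  orth : ∀ c d, d ≠ star c → ∀ x ∈ U c, ∀ y ∈ U d, B x y = 0
  index : Δ.FiniteIndex
  stable : ∀ g ∈ Δ, ∀ c, ∀ x ∈ U c, ρ g x ∈ U c
  irreducible : ∀ c, ∀ Δ' : Subgroup Γ, Δ'.FiniteIndex → ∀ P ≤ U c,
    (∀ g ∈ Δ', ∀ x ∈ P, ρ g x ∈ P) → P = ⊥ ∨ P = U c
  isolated : ∀ c, finrank K (U c) ≤ 1 ∨
    ∃ F a, ∃ v ∈ U c, IsolatedEigenvector (ρ F) (χ F) (H F) a v
  det : ∀ c, star c ≠ c → ∃ F, IndependentDet (ρ F) U c (star c) (H F)

/-- The representation `ρ` is a direct summand of a sum of copies of the representation `τ`. -/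
def SummandOfCopies (τ : Representation K Γ T) (ρ : Representation K Γ V) : Prop :=
  ∃ (r : ℕ) (i : Fin r → (T →ₗ[K] V)) (p : Fin r → (V →ₗ[K] T)),
    (∀ j g x, i j (τ g x) = ρ g (i j x)) ∧ (∀ j g x, p j (ρ g x) = τ g (p j x)) ∧
    ∀ x, ∑ j, i j (p j x) = x

/-- The group `H F` contains the numbers `χ F` and the eigenvalues of `σ F`. -/
def ContainsEigenvalues (H : Γ → Subgroup Kˣ) (χ : Γ →* K) (σ : Representation K Γ E) : Prop :=
  ∀ F, (∃ u ∈ H F, (u : K) = χ F) ∧ ∀ β, IsEig (σ F) β → ∃ u ∈ H F, (u : K) = β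

/-- Let `E` be the space of a Galois representation.  All Tate classes in `(H^1(A))^{⊗ n} ⊗ E` (the
multilinear maps from `V ^ n` to `E` which are equivariant under a subgroup of finite index) are
linear combinations of products `B 0 ⊗ ... ⊗ B (m - 1) ⊗ w` of Hodge classes `B l` of degree two on
`A` (where `n = 2 m`, and the variables are distributed in some way) and Tate classes `w` in `E`
(vectors on which a subgroup of finite index acts through `χ ^ m`). -/
def TateClassesWithCoefficients {W A : Type} [CharZero K] [AddCommGroup W] [Module ℚ W]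
    [AddCommGroup A] [Module ℂ A] (per : W →+ A) (comp : W →+ V) (ρ : Representation K Γ V)
    (χ : Γ →* K) (σ : Representation K Γ E) : Prop :=
  ∀ (n : ℕ) (φ : MultilinearMap K (fun _ : Fin n => V) E),
    (∃ Δ : Subgroup Γ, Δ.FiniteIndex ∧ ∀ s ∈ Δ, ∀ v : Fin n → V,
      φ (fun l => ρ s (v l)) = σ s (φ v)) →
    φ ∈ Submodule.span K {φ' : MultilinearMap K (fun _ : Fin n => V) E |
      ∃ (m : ℕ) (e : Fin m × Fin 2 ≃ Fin n) (B : Fin m → (W →ₗ[ℚ] W →ₗ[ℚ] ℚ)) (w : E),
        (∀ l, IsHodgeBilinear per (B l)) ∧ IsTateVec σ χ m w ∧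
        ∀ v : Fin n → W, φ' (fun l => comp (v l)) =
          ((∏ l, B l (v (e (l, 0))) (v (e (l, 1))) : ℚ) : K) • w}

end Pool.Agent.Y130.MT
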