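import Pool.Agent.Y130.Alg
import Pool.Agent.Y130.Gen

/-!
# Equivariant multilinear maps: invariant coefficients
-/

set_option linter.unusedSectionVars false

open Module Finset Function

namespace Pool.Agent.Y130.MT

open Pool.Agent.Y130 Pool.Agent.TH125.Gal Pool.Agent.TH118.SG Pool.Agent.TH125.Nod

section rep

variable {K : Type} [Field K] {V : Type} [AddCommGroup V] [Module K V] {E : Type}
  [AddCommGroup E] [Module K E] {S : Type}

/-- Sums of products `g • w` can be written with linearly independent `g`. -/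
theorem exists_indep_rep (P : Set (MultilinearMap K (fun _ : S => V) K))
    {h : MultilinearMap K (fun _ : S => V) E}
    (hh : h ∈ Submodule.span K {F : MultilinearMap K (fun _ : S => V) E |
      ∃ g ∈ P, ∃ w : E, F = g.smulRight w}) :
    ∃ (b : Set (MultilinearMap K (fun _ : S => V) K)) (w : b →₀ E), b ⊆ P ∧
      LinearIndependent K (Subtype.val : b → MultilinearMap K (fun _ : S => V) K) ∧
      ∀ v, h v = w.sum fun g e => (g : MultilinearMap K (fun _ : S => V) K) v • e := by
  classical
  obtain ⟨b, hbP, hbs, hbi⟩ := exists_linearIndependent K P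
  refine ⟨b, ?_⟩
  suffices H : ∃ w : b →₀ E, ∀ v, h v = w.sum fun g e =>
      (g : MultilinearMap K (fun _ : S => V) K) v • e by
    obtain ⟨w, hw⟩ := H
    exact ⟨w, hbP, hbi, hw⟩
  induction hh using Submodule.span_induction with
  | mem F hF =>
    obtain ⟨g, hg, w, rfl⟩ := hF
    have h1 : g ∈ Submodule.span K b := by
      rw [hbs]
      exact Submodule.subset_span hg
    rw [← Subtype.range_coe (s := b), Finsupp.mem_span_range_iff_exists_finsupp] at h1
    obtain ⟨c, hc⟩ := h1
    refine ⟨c.mapRange (fun a => a • w) (zero_smul K w), fun v => ?_⟩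
    rw [Finsupp.sum_mapRange_index (fun g => smul_zero _), ← hc]
    rw [MultilinearMap.smulRight_apply, Finsupp.sum, MultilinearMap.sum_apply, Finset.sum_smul]
    refine Finset.sum_congr rfl fun i _ => ?_
    rw [MultilinearMap.smul_apply, smul_eq_mul, mul_comm, mul_smul]
  | zero => exact ⟨0, fun v => by rw [Finsupp.sum_zero_index]; rfl⟩
  | add x y _ _ hx hy =>
    obtain ⟨w, hw⟩ := hx
    obtain ⟨w', hw'⟩ := hy
    refine ⟨w + w', fun v => ?_⟩
    rw [Finsupp.sum_add_index' (fun g => smul_zero _) (fun g a b => smul_add _ _ _), ← hw, ← hw']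
    rfl
  | smul c x _ hx =>
    obtain ⟨w, hw⟩ := hx
    refine ⟨c • w, fun v => ?_⟩
    rw [Finsupp.sum_smul_index' (fun g => smul_zero _), MultilinearMap.smul_apply, hw,
      Finsupp.sum, Finset.smul_sum]
    exact Finset.sum_congr rfl fun g _ => smul_comm _ _ _

/-- The coefficients can be chosen semi-invariant. -/
theorem invariant_coeff {Γ : Type} [Group Γ] (ρ : Γ →* (V →ₗ[K] V)) (σ : Γ →* (E →ₗ[K] E))
    (ν : Γ →* K) (Δ : Subgroup Γ) (P : Set (MultilinearMap K (fun _ : S => V) K))
    (hP : ∀ g ∈ P, ∀ s ∈ Δ, ∀ v : S → V, g (fun j => ρ s (v j)) = ν s * g v)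
    {h : MultilinearMap K (fun _ : S => V) E}
    (hh : h ∈ Submodule.span K {F : MultilinearMap K (fun _ : S => V) E |
      ∃ g ∈ P, ∃ w : E, F = g.smulRight w})
    (hinv : ∀ s ∈ Δ, ∀ v : S → V, h (fun j => ρ s (v j)) = σ s (h v)) :
    h ∈ Submodule.span K {F : MultilinearMap K (fun _ : S => V) E |
      ∃ g ∈ P, ∃ w : E, (∀ s ∈ Δ, σ s w = ν s • w) ∧ F = g.smulRight w} := by
  classical
  obtain ⟨b, w, hbP, hbi, hw⟩ := exists_indep_rep P hh
  have key : ∀ g : b, ∀ s ∈ Δ, σ s (w g) = ν s • w g := by
    intro g s hs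
    by_cases hg : g ∈ w.support
    · rw [← sub_eq_zero, ← Module.forall_dual_apply_eq_zero_iff K]
      intro f
      have h1 : ∑ g' ∈ w.support, f (σ s (w g') - ν s • w g') •
          (g' : MultilinearMap K (fun _ : S => V) K) = 0 := by
        ext v
        have h2 := hinv s hs v
        rw [hw, hw, Finsupp.sum, Finsupp.sum, map_sum] at h2
        have h3 := congrArg f h2
        rw [map_sum, map_sum] at h3
        rw [MultilinearMap.sum_apply, MultilinearMap.zero_apply]
        have h4 : ∀ g' ∈ w.support, (f (σ s (w g') - ν s • w g') •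
            (g' : MultilinearMap K (fun _ : S => V) K)) v =
            f (σ s ((g' : MultilinearMap K (fun _ : S => V) K) v • w g')) -
            f ((g' : MultilinearMap K (fun _ : S => V) K) (fun j => ρ s (v j)) • w g') := by
          intro g' _
          rw [MultilinearMap.smul_apply, hP _ (hbP g'.2) s hs, map_smul, map_smul, map_smul,
            map_sub, map_smul]
          simp only [smul_eq_mul]
          ring
        rw [Finset.sum_congr rfl h4, Finset.sum_sub_distrib, h3, sub_self]
      exact linearIndependent_iff'.1 hbi w.support _ h1 g hg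
    · rw [Finsupp.notMem_support_iff.1 hg, map_zero, smul_zero]
  have h1 : h = ∑ g ∈ w.support, (g : MultilinearMap K (fun _ : S => V) K).smulRight (w g) := by
    ext v
    rw [hw v, MultilinearMap.sum_apply]
    rfl
  rw [h1]
  exact Submodule.sum_mem _ fun g _ => Submodule.subset_span ⟨g, hbP g.2, w g, key g, rfl⟩

end rep

end Pool.Agent.Y130.MT
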